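import Pool.Agent.W203.WS.Stm

/-!
WS-AV: for one frequency, average over all shifts.
-/

set_option autoImplicit false

open MeasureTheory Finset

namespace Pool.Agent.W721.WS.AV

open Pool.Agent.W203.WS

lemma cont_e : Continuous e := by
  unfold e
  fun_prop

lemma cont_S (k P : ℕ) (t : ℝ) : Continuous (fun θ => S k P t θ) := by
  unfold S
  exact continuous_finsetSum _ fun x _ => cont_e.comp (by fun_prop)

lemma int_S (k P : ℕ) (t : ℝ) : ∫ θ in (0 : ℝ)..1, S k P t θ = J1 k P t := by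
  unfold S J1
  have hc : Continuous (fun u : ℝ => e (t * u ^ k)) := cont_e.comp (by fun_prop)
  rw [intervalIntegral.integral_finsetSum]
  · have h1 : ∀ x : ℕ, ∫ θ in (0 : ℝ)..1, e (t * ((x : ℝ) + θ) ^ k) =
        ∫ u in ((fun n : ℕ => (n : ℝ)) x)..((fun n : ℕ => (n : ℝ)) (x + 1)), e (t * u ^ k) := by
      intro x
      rw [intervalIntegral.integral_comp_add_left (fun u => e (t * u ^ k)) (x : ℝ)]
      simp
    rw [Finset.sum_congr rfl fun x _ => h1 x,
      intervalIntegral.sum_integral_adjacent_intervals_Ico (by omega : P ≤ 4 * P)]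
    · simp
    · intro x _; exact hc.intervalIntegrable _ _
  · intro x _
    exact (hc.comp (by fun_prop : Continuous fun θ : ℝ => (x : ℝ) + θ)).intervalIntegrable _ _

theorem t_AV : S_AV := by
  intro k s P t hs
  set μ : Measure ℝ := volume.restrict (Set.Icc (0 : ℝ) 1) with hμ
  have : IsProbabilityMeasure μ :=
    ⟨by rw [hμ, Measure.restrict_apply_univ, Real.volume_Icc]; norm_num⟩
  have hcube : (volume : Measure (Fin s → ℝ)).restrict (cube s) =
      Measure.pi (fun _ : Fin s => μ) := by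
    rw [cube, volume_pi, Measure.restrict_pi_pi]
  have hI : ∀ f : ℝ → ℝ, ∫ θ in (0 : ℝ)..1, f θ = ∫ θ, f θ ∂μ := by
    intro f
    rw [intervalIntegral.integral_of_le zero_le_one, ← integral_Icc_eq_integral_Ioc]
  have hc := cont_S k P t
  have hSn : Integrable (fun θ => ‖S k P t θ‖) μ :=
    hc.norm.continuousOn.integrableOn_compact isCompact_Icc
  have hS2 : Integrable (fun θ => ‖S k P t θ‖ ^ 2) μ :=
    (hc.norm.pow 2).continuousOn.integrableOn_compact isCompact_Icc
  rw [hI]
  set y := ∫ θ, ‖S k P t θ‖ ^ 2 ∂μ with hy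
  set a := ∫ θ, ‖S k P t θ‖ ∂μ with ha
  have ha0 : 0 ≤ a := integral_nonneg fun _ => norm_nonneg _
  have hay : a ^ 2 ≤ y := by
    have h1 : 0 ≤ ∫ θ, (‖S k P t θ‖ - a) ^ 2 ∂μ := integral_nonneg fun _ => sq_nonneg _
    have h2 : ∫ θ, (‖S k P t θ‖ - a) ^ 2 ∂μ = y - 2 * a * a + a ^ 2 := by
      have h3 : ∀ θ, (‖S k P t θ‖ - a) ^ 2 =
          ‖S k P t θ‖ ^ 2 - (2 * a) * ‖S k P t θ‖ + a ^ 2 := by intro θ; ring
      simp_rw [h3]
      have hi1 : Integrable (fun θ => ‖S k P t θ‖ ^ 2 - (2 * a) * ‖S k P t θ‖) μ :=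
        hS2.sub (hSn.const_mul _)
      rw [integral_add hi1 (integrable_const _),
        integral_sub hS2 (hSn.const_mul _), integral_const_mul, integral_const]
      simp [← hy, ← ha]
    nlinarith
  have hpow : a ^ s ≤ y ^ ((s : ℝ) / 2) := by
    calc a ^ s = (a ^ 2) ^ ((s : ℝ) / 2) := by
          rw [← Real.rpow_natCast a 2, ← Real.rpow_mul ha0, ← Real.rpow_natCast a s]
          congr 1; push_cast; ring
      _ ≤ y ^ ((s : ℝ) / 2) := Real.rpow_le_rpow (sq_nonneg a) hay (by positivity)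
  have hJ : ‖J1 k P t‖ ≤ a := by
    rw [← int_S]
    have h1 := intervalIntegral.norm_integral_le_integral_norm (f := fun θ => S k P t θ)
      (μ := volume) (zero_le_one (α := ℝ))
    rw [hI] at h1
    exact h1
  have hprod : ∫ θ, ‖∏ i, S k P t (θ i)‖ ∂(Measure.pi (fun _ : Fin s => μ)) = a ^ s := by
    simp_rw [norm_prod]
    rw [integral_fintype_prod_eq_pow (fun x => ‖S k P t x‖), Fintype.card_fin]
  have hcK : IsCompact (cube s) := isCompact_univ_pi fun _ => isCompact_Icc
  have hcp : Continuous (fun θ : Fin s → ℝ => ∏ i, S k P t (θ i)) :=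
    continuous_finsetProd _ fun i _ => hc.comp (continuous_apply i)
  have hint1 : Integrable (fun θ : Fin s → ℝ => ‖∏ i, S k P t (θ i)‖)
      (Measure.pi (fun _ : Fin s => μ)) := by
    rw [← hcube]
    exact hcp.norm.continuousOn.integrableOn_compact hcK
  have hint2 : Integrable (fun θ : Fin s → ℝ => ‖(∏ i, S k P t (θ i)) - J1 k P t ^ s‖)
      (Measure.pi (fun _ : Fin s => μ)) := by
    rw [← hcube]
    exact (hcp.sub continuous_const).norm.continuousOn.integrableOn_compact hcK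
  rw [hcube]
  calc ∫ θ, ‖(∏ i, S k P t (θ i)) - J1 k P t ^ s‖ ∂(Measure.pi (fun _ : Fin s => μ))
      ≤ ∫ θ, (‖∏ i, S k P t (θ i)‖ + ‖J1 k P t‖ ^ s) ∂(Measure.pi (fun _ : Fin s => μ)) := by
        refine integral_mono hint2 (hint1.add (integrable_const _)) fun θ => ?_
        refine (norm_sub_le _ _).trans ?_
        rw [norm_pow]
    _ = a ^ s + ‖J1 k P t‖ ^ s := by
        rw [integral_add hint1 (integrable_const _), hprod, integral_const]
        simp
    _ ≤ y ^ ((s : ℝ) / 2) + y ^ ((s : ℝ) / 2) :=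
        add_le_add hpow ((pow_le_pow_left₀ (norm_nonneg _) hJ s).trans hpow)
    _ = 2 * y ^ ((s : ℝ) / 2) := by ring

end Pool.Agent.W721.WS.AV
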