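import Pool.Agent.W203.WS.Stm

/-!
WS-JL: lower bound for the expected number.
-/

set_option autoImplicit false

open MeasureTheory Finset

namespace Pool.Agent.W721.WS.JL

open Pool.Agent.W203.WS

lemma pow_sub_le {x y B : ℝ} (hx : 0 ≤ x) (hxy : x ≤ y) (hyB : y ≤ B) (k : ℕ) :
    y ^ (k + 1) - x ^ (k + 1) ≤ (k + 1) * B ^ k * (y - x) := by
  have hy : 0 ≤ y := hx.trans hxy
  have hB : 0 ≤ B := hy.trans hyB
  induction k with
  | zero => simp
  | succ k ih =>
    have h1 : y ^ (k + 1 + 1) - x ^ (k + 1 + 1) =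
        y * (y ^ (k + 1) - x ^ (k + 1)) + x ^ (k + 1) * (y - x) := by ring
    have h2 : 0 ≤ y ^ (k + 1) - x ^ (k + 1) :=
      sub_nonneg.2 (pow_le_pow_left₀ hx hxy _)
    have h3 : y * (y ^ (k + 1) - x ^ (k + 1)) ≤ B * ((k + 1) * B ^ k * (y - x)) :=
      mul_le_mul hyB ih h2 hB
    have h4 : x ^ (k + 1) * (y - x) ≤ B ^ (k + 1) * (y - x) :=
      mul_le_mul_of_nonneg_right (pow_le_pow_left₀ hx (hxy.trans hyB) _) (sub_nonneg.2 hxy)
    rw [h1]
    push_cast
    calc y * (y ^ (k + 1) - x ^ (k + 1)) + x ^ (k + 1) * (y - x)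
        ≤ B * ((k + 1) * B ^ k * (y - x)) + B ^ (k + 1) * (y - x) := add_le_add h3 h4
      _ = (k + 1 + 1) * B ^ (k + 1) * (y - x) := by ring

lemma Kr_cont (ε : ℝ) : Continuous (Kr ε) := by
  unfold Kr
  fun_prop

lemma Kr_nonneg (ε x : ℝ) : 0 ≤ Kr ε x := (Real.exp_pos _).le

lemma Kr_ge {ε x : ℝ} (hε : 0 < ε) (hx : |x| ≤ ε) : Real.exp (-Real.pi) ≤ Kr ε x := by
  unfold Kr
  apply Real.exp_le_exp.2
  have h1 : (x / ε) ^ 2 ≤ 1 := by
    rw [sq_le_one_iff_abs_le_one, abs_div, abs_of_pos hε]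
    exact (div_le_one hε).2 hx
  nlinarith [Real.pi_pos]

/-- The integral over one variable. -/
lemma inner (k : ℕ) (P ε m : ℝ) (hP : 0 < P) (hε : 0 < ε) (hε1 : ε ≤ P ^ (k + 1))
    (h1 : P ^ (k + 1) ≤ m) (h2 : m ≤ (3 * P) ^ (k + 1)) :
    Real.exp (-Real.pi) * (ε / ((k + 1) * (4 * P) ^ k)) ≤
      ∫ a in Set.Icc P (4 * P), Kr ε (a ^ (k + 1) - m) := by
  set δ : ℝ := ε / ((k + 1) * (4 * P) ^ k) with hδ
  have hden : 0 < ((k : ℝ) + 1) * (4 * P) ^ k := by positivity
  have hδ0 : 0 < δ := by positivity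
  have hδP : δ ≤ P := by
    rw [hδ, div_le_iff₀ hden]
    calc ε ≤ P ^ (k + 1) := hε1
      _ = P * (1 * P ^ k) := by ring
      _ ≤ P * (((k : ℝ) + 1) * (4 * P) ^ k) := by
        apply mul_le_mul_of_nonneg_left _ hP.le
        apply mul_le_mul _ _ (by positivity) (by positivity)
        · have : (0 : ℝ) ≤ k := Nat.cast_nonneg k
          linarith
        · exact pow_le_pow_left₀ hP.le (by linarith) _
  have hm : 0 < m := lt_of_lt_of_le (by positivity) h1
  set w : ℝ := m ^ ((((k + 1 : ℕ) : ℝ))⁻¹) with hw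
  have hw0 : 0 ≤ w := Real.rpow_nonneg hm.le _
  have hwk : w ^ (k + 1) = m := Real.rpow_inv_natCast_pow hm.le (Nat.succ_ne_zero k)
  have hPw : P ≤ w := by
    rw [← hwk] at h1
    exact le_of_pow_le_pow_left₀ (Nat.succ_ne_zero k) hw0 h1
  have hw3 : w ≤ 3 * P := by
    rw [← hwk] at h2
    exact le_of_pow_le_pow_left₀ (Nat.succ_ne_zero k) (by positivity) h2
  have hsub : Set.Icc w (w + δ) ⊆ Set.Icc P (4 * P) :=
    Set.Icc_subset_Icc hPw (by linarith)
  have hcont : Continuous (fun a : ℝ => Kr ε (a ^ (k + 1) - m)) :=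
    (Kr_cont ε).comp (by fun_prop)
  have hint : IntegrableOn (fun a : ℝ => Kr ε (a ^ (k + 1) - m)) (Set.Icc P (4 * P)) volume :=
    hcont.continuousOn.integrableOn_compact isCompact_Icc
  calc Real.exp (-Real.pi) * δ
      = Real.exp (-Real.pi) * (volume.real (Set.Icc w (w + δ))) := by
        rw [Real.volume_real_Icc_of_le (by linarith)]
        congr 1; ring
    _ ≤ ∫ a in Set.Icc w (w + δ), Kr ε (a ^ (k + 1) - m) := by
        apply setIntegral_ge_of_const_le_real measurableSet_Icc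
        · rw [Real.volume_Icc]; exact ENNReal.ofReal_ne_top
        · intro a ha
          apply Kr_ge hε
          rw [← hwk, abs_of_nonneg (sub_nonneg.2 (pow_le_pow_left₀ hw0 ha.1 _))]
          calc a ^ (k + 1) - w ^ (k + 1) ≤ (k + 1) * (4 * P) ^ k * (a - w) :=
                pow_sub_le hw0 ha.1 (by have := ha.2; linarith) k
            _ ≤ (k + 1) * (4 * P) ^ k * δ := by
                apply mul_le_mul_of_nonneg_left _ hden.le
                have := ha.2; linarith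
            _ = ε := by rw [hδ]; field_simp
        · exact hint.mono_set hsub
    _ ≤ ∫ a in Set.Icc P (4 * P), Kr ε (a ^ (k + 1) - m) := by
        apply setIntegral_mono_set hint
        · exact Filter.Eventually.of_forall fun a => Kr_nonneg _ _
        · exact hsub.eventuallyLE

/-- Fubini -/
lemma fub (k n P : ℕ) (ε M : ℝ) :
    Jm k (n + 1) P ε M = ∫ y in Set.pi Set.univ (fun _ : Fin n => Set.Icc (P : ℝ) (4 * P)),
      ∫ a in Set.Icc (P : ℝ) (4 * P), Kr ε (a ^ k + (∑ i, (y i) ^ k) - M) := by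
  set T : Set (Fin n → ℝ) := Set.pi Set.univ (fun _ : Fin n => Set.Icc (P : ℝ) (4 * P)) with hT
  have hE := volume_preserving_piFinSuccAbove (fun _ : Fin (n + 1) => ℝ) 0
  have h1 := hE.setIntegral_preimage_emb (MeasurableEquiv.measurableEmbedding _)
    (fun z : ℝ × (Fin n → ℝ) => Kr ε (z.1 ^ k + (∑ i, (z.2 i) ^ k) - M))
    (Set.Icc (P : ℝ) (4 * P) ×ˢ T)
  have h2 : (MeasurableEquiv.piFinSuccAbove (fun _ : Fin (n + 1) => ℝ) 0) ⁻¹'
      (Set.Icc (P : ℝ) (4 * P) ×ˢ T) =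
      Set.pi Set.univ (fun _ : Fin (n + 1) => Set.Icc (P : ℝ) (4 * P)) := by
    ext u
    simp only [Set.mem_preimage, Set.mem_prod, hT, Set.mem_pi, Set.mem_univ, true_implies,
      MeasurableEquiv.piFinSuccAbove_apply, Fin.insertNthEquiv_symm_apply]
    constructor
    · rintro ⟨h, h'⟩ i
      refine Fin.cases h (fun j => ?_) i
      have := h' j
      simpa [Fin.removeNth] using this
    · intro h
      exact ⟨h 0, fun j => by simpa [Fin.removeNth] using h j.succ⟩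
  rw [h2] at h1
  have h3 : Jm k (n + 1) P ε M =
      ∫ z in Set.Icc (P : ℝ) (4 * P) ×ˢ T, Kr ε (z.1 ^ k + (∑ i, (z.2 i) ^ k) - M)
        ∂((volume : Measure ℝ).prod (volume : Measure (Fin n → ℝ))) := by
    rw [Jm]
    rw [Measure.volume_eq_prod] at h1
    rw [← h1]
    congr 1
    ext u
    congr 1
    rw [Fin.sum_univ_succ]
    simp [MeasurableEquiv.piFinSuccAbove_apply]
    rfl
  rw [h3, ← setIntegral_prod_swap, setIntegral_prod]
  · rfl
  · have hcont : Continuous (fun z : (Fin n → ℝ) × ℝ =>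
        Kr ε (z.2 ^ k + (∑ i, (z.1 i) ^ k) - M)) :=
      (Kr_cont ε).comp (by fun_prop)
    exact hcont.continuousOn.integrableOn_compact
      ((isCompact_univ_pi fun _ => isCompact_Icc).prod isCompact_Icc)

theorem t_JL : S_JL := by
  intro k' s hk hs
  obtain ⟨k, rfl⟩ : ∃ k, k' = k + 1 := ⟨k' - 1, by omega⟩
  obtain ⟨n, rfl⟩ : ∃ n, s = n + 1 := ⟨s - 1, by omega⟩
  set c₀ : ℝ := 1 / (2 * (n + 1) * (k + 1) * 4 ^ k) with hc₀
  have hc₀0 : 0 < c₀ := by positivity
  have hc₀1 : c₀ ≤ 1 := by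
    rw [hc₀, div_le_one (by positivity)]
    have h1 : (1 : ℝ) ≤ 4 ^ k := one_le_pow₀ (by norm_num)
    have h2 : (0 : ℝ) ≤ n := Nat.cast_nonneg n
    have h3 : (0 : ℝ) ≤ k := Nat.cast_nonneg k
    have h4 : (1 : ℝ) ≤ 2 * (n + 1) * (k + 1) := by nlinarith
    nlinarith
  refine ⟨c₀ ^ n * (Real.exp (-Real.pi) / ((k + 1) * 4 ^ k)), by positivity, ?_⟩
  intro P ε M hP1 hε hε1 hM1 hM2
  have hP : (0 : ℝ) < P := by exact_mod_cast hP1
  have hP1' : (1 : ℝ) ≤ P := by exact_mod_cast hP1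
  have hs0 : (0 : ℝ) < ((n + 1 : ℕ) : ℝ) := by positivity
  have hMs : 0 ≤ M / ((n + 1 : ℕ) : ℝ) := by
    apply div_nonneg _ hs0.le
    exact le_trans (by positivity) hM1
  set v : ℝ := (M / ((n + 1 : ℕ) : ℝ)) ^ ((((k + 1 : ℕ) : ℝ))⁻¹) with hv
  have hv0 : 0 ≤ v := Real.rpow_nonneg hMs _
  have hvk : v ^ (k + 1) = M / ((n + 1 : ℕ) : ℝ) :=
    Real.rpow_inv_natCast_pow hMs (Nat.succ_ne_zero k)
  have hMv : M = ((n + 1 : ℕ) : ℝ) * v ^ (k + 1) := by rw [hvk]; field_simp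
  have hv1 : (3 / 2 * (P : ℝ)) ≤ v := by
    rw [hMv] at hM1
    exact le_of_pow_le_pow_left₀ (Nat.succ_ne_zero k) hv0 (le_of_mul_le_mul_left hM1 hs0)
  have hv2 : v ≤ 3 * P := by
    rw [hMv] at hM2
    exact le_of_pow_le_pow_left₀ (Nat.succ_ne_zero k) (by positivity)
      (le_of_mul_le_mul_left hM2 hs0)
  rw [fub]
  set T : Set (Fin n → ℝ) := Set.pi Set.univ (fun _ : Fin n => Set.Icc (P : ℝ) (4 * P)) with hT
  set T' : Set (Fin n → ℝ) := Set.pi Set.univ (fun _ : Fin n => Set.Icc v (v + c₀ * P)) with hT'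
  have hTT : T' ⊆ T := by
    apply Set.pi_mono
    intro i _
    apply Set.Icc_subset_Icc
    · linarith
    · nlinarith
  set G : (Fin n → ℝ) → ℝ := fun y => ∫ a in Set.Icc (P : ℝ) (4 * P),
    Kr ε (a ^ (k + 1) + (∑ i, (y i) ^ (k + 1)) - M) with hG
  have hG0 : ∀ y, 0 ≤ G y := fun y => integral_nonneg fun a => Kr_nonneg _ _
  have hcont : Continuous (fun z : (Fin n → ℝ) × ℝ =>
      Kr ε (z.2 ^ (k + 1) + (∑ i, (z.1 i) ^ (k + 1)) - M)) :=
    (Kr_cont ε).comp (by fun_prop)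
  have hGint : IntegrableOn G T volume := by
    have h1 : IntegrableOn (fun z : (Fin n → ℝ) × ℝ =>
        Kr ε (z.2 ^ (k + 1) + (∑ i, (z.1 i) ^ (k + 1)) - M)) (T ×ˢ Set.Icc (P : ℝ) (4 * P))
        ((volume : Measure (Fin n → ℝ)).prod (volume : Measure ℝ)) :=
      hcont.continuousOn.integrableOn_compact
        ((isCompact_univ_pi fun _ => isCompact_Icc).prod isCompact_Icc)
    rw [IntegrableOn, ← Measure.prod_restrict] at h1
    exact h1.integral_prod_left
  have hlow : ∀ y ∈ T', Real.exp (-Real.pi) * (ε / ((k + 1) * (4 * P) ^ k)) ≤ G y := by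
    intro y hy
    have hy' : ∀ i, v ≤ y i ∧ y i ≤ v + c₀ * P := fun i => hy i (Set.mem_univ i)
    have hA : ∀ i, v ^ (k + 1) ≤ y i ^ (k + 1) := fun i => pow_le_pow_left₀ hv0 (hy' i).1 _
    have hB : ∀ i, y i ^ (k + 1) ≤ v ^ (k + 1) + (k + 1) * (4 * P) ^ k * (c₀ * P) := by
      intro i
      have h1 := pow_sub_le (k := k) (B := 4 * P) hv0 (hy' i).1
        (by have := (hy' i).2; nlinarith)
      have h2 : ((k : ℝ) + 1) * (4 * P) ^ k * (y i - v) ≤
          (k + 1) * (4 * P) ^ k * (c₀ * P) := by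
        apply mul_le_mul_of_nonneg_left _ (by positivity)
        have := (hy' i).2; linarith
      linarith
    have hA' : (n : ℝ) * v ^ (k + 1) ≤ ∑ i, y i ^ (k + 1) := by
      have := Finset.sum_le_sum (s := (Finset.univ : Finset (Fin n))) fun i _ => hA i
      simpa using this
    have hB' : ∑ i, y i ^ (k + 1) ≤
        (n : ℝ) * (v ^ (k + 1) + (k + 1) * (4 * P) ^ k * (c₀ * P)) := by
      have := Finset.sum_le_sum (s := (Finset.univ : Finset (Fin n))) fun i _ => hB i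
      rw [Finset.sum_const, Finset.card_univ, Fintype.card_fin, nsmul_eq_mul] at this
      exact this
    have hG' : G y = ∫ a in Set.Icc (P : ℝ) (4 * P),
        Kr ε (a ^ (k + 1) - (M - ∑ i, (y i) ^ (k + 1))) := by
      rw [hG]
      refine integral_congr_ae (Filter.Eventually.of_forall fun a => ?_)
      change Kr ε _ = Kr ε _
      congr 1
      ring
    rw [hG']
    have hMv' : M = (n : ℝ) * v ^ (k + 1) + v ^ (k + 1) := by
      rw [hMv]; push_cast; ring
    apply inner k P ε _ hP hε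
    · exact hε1.trans (one_le_pow₀ hP1')
    · have h5 : (3 / 2 * (P : ℝ)) ^ (k + 1) ≤ v ^ (k + 1) :=
        pow_le_pow_left₀ (by positivity) hv1 _
      have h6 : (3 / 2 : ℝ) * (P : ℝ) ^ (k + 1) ≤ (3 / 2 * (P : ℝ)) ^ (k + 1) := by
        rw [mul_pow]
        apply mul_le_mul_of_nonneg_right _ (by positivity)
        exact le_self_pow₀ (by norm_num) (Nat.succ_ne_zero k)
      have h7 : (n : ℝ) * ((k + 1) * (4 * P) ^ k * (c₀ * P)) ≤ 1 / 2 * (P : ℝ) ^ (k + 1) := by
        have h8 : (n : ℝ) * ((k + 1) * (4 * P) ^ k * (c₀ * P)) =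
            (n / (n + 1)) * (1 / 2 * (P : ℝ) ^ (k + 1)) := by
          rw [hc₀, mul_pow]; field_simp; ring
        rw [h8]
        have h9 : (n : ℝ) / (n + 1) ≤ 1 := (div_le_one (by positivity)).2 (by linarith)
        nlinarith [pow_pos hP (k + 1)]
      nlinarith
    · have h5 : v ^ (k + 1) ≤ (3 * (P : ℝ)) ^ (k + 1) := pow_le_pow_left₀ hv0 hv2 _
      linarith
  have hvol : volume.real T' = (c₀ * P) ^ n := by
    rw [Measure.real, hT', volume_pi_pi]
    simp only [Real.volume_Icc, add_sub_cancel_left, Finset.prod_const, Finset.card_univ,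
      Fintype.card_fin, ENNReal.toReal_pow]
    rw [ENNReal.toReal_ofReal (by positivity)]
  calc c₀ ^ n * (Real.exp (-Real.pi) / ((k + 1) * 4 ^ k)) * ε *
        (P : ℝ) ^ (((n + 1 : ℕ) : ℝ) - ((k + 1 : ℕ) : ℝ))
      = Real.exp (-Real.pi) * (ε / ((k + 1) * (4 * P) ^ k)) * volume.real T' := by
        have h1 : (((n + 1 : ℕ) : ℝ) - ((k + 1 : ℕ) : ℝ)) = (n : ℝ) - (k : ℝ) := by
          push_cast; ring
        rw [h1, Real.rpow_sub hP, Real.rpow_natCast, Real.rpow_natCast, hvol, mul_pow, mul_pow]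
        field_simp
    _ ≤ ∫ y in T', G y := by
        apply setIntegral_ge_of_const_le_real
        · exact MeasurableSet.univ_pi fun _ => measurableSet_Icc
        · exact (isCompact_univ_pi fun _ => isCompact_Icc).measure_ne_top
        · exact hlow
        · exact hGint.mono_set hTT
    _ ≤ ∫ y in T, G y := by
        apply setIntegral_mono_set hGint
        · exact Filter.Eventually.of_forall hG0
        · exact hTT.eventuallyLE

end Pool.Agent.W721.WS.JL
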